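import Pool.Agent.K1H77.CG.Stm

/-! Ratios of double factorials. -/

set_option autoImplicit false

open Finset Filter Topology

namespace Pool.Agent.K1H99.CG

open Pool.Agent.K1H77.CG

theorem pow_aux (m i : ℕ) (hm : 1 ≤ m) (hi : i ≤ m) : ((m : ℝ) + 1) ^ i ≤ 3 * (m : ℝ) ^ i := by
  have hm0 : (0 : ℝ) < m := by exact_mod_cast hm
  have h1 : (1 : ℝ) + 1 / m ≤ Real.exp (1 / m) := by
    have := Real.add_one_le_exp (1 / (m : ℝ)); linarith
  have h2 : ((1 : ℝ) + 1 / m) ^ i ≤ 3 := by
    calc ((1 : ℝ) + 1 / m) ^ i ≤ (Real.exp (1 / m)) ^ i := by gcongr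
      _ = Real.exp (i * (1 / m)) := (Real.exp_nat_mul _ _).symm
      _ ≤ Real.exp 1 := by
        apply Real.exp_le_exp.2
        rw [mul_one_div, div_le_one hm0]
        exact_mod_cast hi
      _ ≤ 3 := by linarith [Real.exp_one_lt_d9]
  have h3 : ((m : ℝ) + 1) = m * (1 + 1 / m) := by field_simp
  rw [h3, mul_pow]
  have := mul_le_mul_of_nonneg_left h2 (pow_nonneg hm0.le i)
  linarith

theorem t_FMR : S_FMR := by
  intro k
  induction k with
  | zero =>
    intro j hj
    obtain rfl : j = 0 := by omega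
    simp
  | succ m ih =>
    intro j hj
    rcases Nat.eq_zero_or_pos j with rfl | hj0
    · simp
    obtain ⟨i, rfl⟩ : ∃ i, j = i + 1 := ⟨j - 1, by omega⟩
    have hi : i ≤ m := by omega
    have h1 := ih i hi
    have e1 : m + 1 - (i + 1) = m - i := by omega
    have e2 : (fm (2 * (m + 1)) : ℝ) = (2 * m + 1) * fm (2 * m) := by
      have : 2 * (m + 1) = 2 * m + 2 := by ring
      rw [this, fm]; push_cast; ring
    rw [e1, e2]
    have hf : (0 : ℝ) ≤ fm (2 * (m - i)) := Nat.cast_nonneg _
    have key : (((m + 1 : ℕ) : ℝ) / 2) ^ (i + 1) ≤ (2 * m + 1) * ((m : ℝ) / 2) ^ i := by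
      rcases Nat.eq_zero_or_pos m with rfl | hm
      · obtain rfl : i = 0 := by omega
        norm_num
      · have h2 := pow_aux m i hm hi
        have hm1 : (1 : ℝ) ≤ m := by exact_mod_cast hm
        push_cast
        rw [div_pow, div_pow, pow_succ, pow_succ]
        rw [div_le_iff₀ (by positivity)]
        have h4 : (2 * (m : ℝ) + 1) * ((m : ℝ) ^ i / 2 ^ i) * (2 ^ i * 2)
            = (4 * m + 2) * (m : ℝ) ^ i := by
          field_simp; ring
        rw [h4]
        have h5 : (0 : ℝ) ≤ (m : ℝ) ^ i := by positivity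
        nlinarith [mul_le_mul_of_nonneg_right h2 (by linarith : (0 : ℝ) ≤ (m : ℝ) + 1)]
    calc (fm (2 * (m - i)) : ℝ) * (((m + 1 : ℕ) : ℝ) / 2) ^ (i + 1)
        ≤ fm (2 * (m - i)) * ((2 * m + 1) * ((m : ℝ) / 2) ^ i) :=
          mul_le_mul_of_nonneg_left key hf
      _ = (2 * m + 1) * (fm (2 * (m - i)) * ((m : ℝ) / 2) ^ i) := by ring
      _ ≤ (2 * m + 1) * fm (2 * m) := mul_le_mul_of_nonneg_left h1 (by positivity)

theorem t_FMA : S_FMA := by
  intro j
  induction j with
  | zero =>
    refine tendsto_const_nhds.congr' ?_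
    filter_upwards [eventually_ge_atTop 1] with k hk
    have h : (fm (6 * k) : ℝ) ≠ 0 := by
      have := fm_pos (3 * k)
      rw [show 2 * (3 * k) = 6 * k by ring] at this
      exact_mod_cast this.ne'
    simp [h]
  | succ j ih =>
    have h1 : Tendsto (fun k : ℕ => (6 * k : ℝ) / (6 * k - 2 * j - 1)) atTop (𝓝 1) := by
      have h2 : Tendsto (fun k : ℕ => (1 : ℝ) / (1 - ((2 * j + 1 : ℝ) / 6) / k)) atTop
          (𝓝 (1 / (1 - 0))) := by
        refine Tendsto.div tendsto_const_nhds (tendsto_const_nhds.sub ?_) (by norm_num)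
        exact tendsto_const_nhds.div_atTop tendsto_natCast_atTop_atTop
      rw [sub_zero, div_one] at h2
      refine h2.congr' ?_
      filter_upwards [eventually_ge_atTop (j + 1)] with k hk
      have hk0 : (0 : ℝ) < k := by
        have : 0 < k := by omega
        exact_mod_cast this
      have hkj : (j : ℝ) + 1 ≤ k := by exact_mod_cast hk
      have hne : (6 * k - 2 * j - 1 : ℝ) ≠ 0 := by
        have hj0 : (0 : ℝ) ≤ j := Nat.cast_nonneg _
        nlinarith
      have hne2 : (1 - ((2 * j + 1 : ℝ) / 6) / k) ≠ 0 := by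
        intro h
        apply hne
        have : (1 - ((2 * j + 1 : ℝ) / 6) / k) * (6 * k) = 0 := by rw [h, zero_mul]
        rw [← this]
        field_simp
        ring
      rw [div_eq_div_iff hne2 hne]
      field_simp
      ring
    have h3 := ih.mul h1
    rw [mul_one] at h3
    refine h3.congr' ?_
    filter_upwards [eventually_ge_atTop (j + 1)] with k hk
    have e1 : 6 * k - 2 * j = (6 * k - 2 * (j + 1)) + 2 := by omega
    have e2 : (fm (6 * k - 2 * j) : ℝ) = (6 * k - 2 * j - 1) * fm (6 * k - 2 * (j + 1)) := by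
      rw [e1, fm]
      push_cast
      rw [Nat.cast_sub (by omega)]
      push_cast
      ring
    have hkj : (j : ℝ) + 1 ≤ k := by exact_mod_cast hk
    have hne : (6 * k - 2 * j - 1 : ℝ) ≠ 0 := by
      have hj0 : (0 : ℝ) ≤ j := Nat.cast_nonneg _
      nlinarith
    rw [e2, pow_succ]
    have h : (fm (6 * k) : ℝ) ≠ 0 := by
      have := fm_pos (3 * k)
      rw [show 2 * (3 * k) = 6 * k by ring] at this
      exact_mod_cast this.ne'
    field_simp

end Pool.Agent.K1H99.CG
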